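import Pool.Agent.ASD.Stmts8
import Pool.Agent.Helper43_ASO.ESY
import Pool.Agent.Helper34_K9.INX

/-!
# Squad ASD, row ESD: the group `V₀` and the automorphisms `E₀`
-/

open scoped BigOperators

noncomputable section

namespace Pool.Agent.PP.SD.H20

open Pool.Agent.Helper51_AWC Pool.Agent.Helper79_WRA Pool.Agent.PP Pool.Agent.PP.KF
open Pool.Agent.PP.K9 Pool.Agent.PP.K9.H97 Pool.Agent.PP.H75 Pool.Agent.PP.T3 Pool.Agent.PP.SO

attribute [local instance] Ideal.Quotient.field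

section gen

variable {G V₀ : Type} [Group G] [CommGroup V₀] (i : V₀ →* G) (T : Subgroup G)

/-- the order of the group of the induced automorphisms -/
theorem card_autT (hi : Function.Injective i) (C : Subgroup G)
    (hC : ∀ t, t ∈ C ↔ ∀ v, t * i v = i v * t)
    (hact : ∀ t ∈ T, ∃ σ : MulAut V₀, ∀ v, t * i v * t⁻¹ = i (σ v)) :
    Nat.card (SO.H43.autT i T) = C.relIndex T := by
  choose f hf using hact
  have hm : ∀ s t : T, f (s * t : T) (s * t : T).2 = f s s.2 * f t t.2 := by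
    intro s t
    apply MulEquiv.ext
    intro v
    apply hi
    rw [← hf, MulAut.mul_apply, ← hf, ← hf, Subgroup.coe_mul]
    group
  let φ : T →* MulAut V₀ := MonoidHom.mk' (fun t => f t t.2) hm
  have hφ : ∀ t : T, φ t = f t t.2 := fun t => rfl
  have h1 : φ.range = SO.H43.autT i T := by
    ext σ
    constructor
    · rintro ⟨t, rfl⟩
      exact ⟨t, t.2, hf t t.2⟩
    · rintro ⟨t, ht, hσ⟩
      refine ⟨⟨t, ht⟩, ?_⟩
      apply MulEquiv.ext
      intro v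
      apply hi
      rw [← hσ v, hφ, ← hf]
  have h2 : φ.ker = C.subgroupOf T := by
    ext t
    rw [MonoidHom.mem_ker, Subgroup.mem_subgroupOf, hC]
    constructor
    · intro h v
      have h3 := hf t t.2 v
      rw [← hφ t, h, MulAut.one_apply] at h3
      exact mul_inv_eq_iff_eq_mul.1 h3
    · intro h
      apply MulEquiv.ext
      intro v
      apply hi
      rw [hφ, ← hf, h v, mul_inv_cancel_right]
      rfl
  rw [← h1, ← Subgroup.index_ker, h2]
  rfl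

end gen

/-- the general form, with given `V₀` and `i` -/
theorem esd_gen (hInx : K9.InxStmt) {ℓ : ℕ} [Fact ℓ.Prime] {M : Ideal (integralClosure ℤ ℂ)}
    [M.IsMaximal] (hM : (ℓ : integralClosure ℤ ℂ) ∈ M) {G V₀ : Type} [Group G] [Finite G]
    [CommGroup V₀] [Finite V₀] {e : G → FF M} {V : Subgroup G} {γ : G → FF M} (hL : Ld ℓ e V γ)
    (hexp : ∀ v ∈ V, v ^ ℓ = 1) (hcd : Nat.card V = ℓ ^ 2) (i : V₀ →* G)
    (hi : Function.Injective i) (hr : i.range = V) :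
  ∃ (E₀ : Subgroup (MulAut V₀)), 
    Fq ℓ V₀ E₀ ∧ Function.Injective i ∧ i.range = V ∧
    (∀ t ∈ Tg V γ, ∃ σ ∈ E₀, ∀ v, t * i v * t⁻¹ = i (σ v)) ∧
    (∀ σ ∈ E₀, ∃ t ∈ Tg V γ, ∀ v, t * i v * t⁻¹ = i (σ v)) ∧
    ((∀ s ∈ Tg V γ, ∀ t ∈ Tg V γ, s * t * s⁻¹ * t⁻¹ ∈ Subgroup.centralizer (V : Set G)) →
      ∀ σ ∈ E₀, ∀ τ ∈ E₀, σ * τ = τ * σ) ∧
    (Fr ℓ V₀ E₀ → T8.Fr V γ) := by
  have hmem : ∀ v, i v ∈ V := fun v => hr ▸ ⟨v, rfl⟩
  have hact0 : ∀ t ∈ Tg V γ, ∃ σ : MulAut V₀, ∀ v, t * i v * t⁻¹ = i (σ v) := by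
    intro t ht
    exact SO.H43.exists_aut i hi (t := t) (fun v => by
      have h1 := (Subgroup.mem_normalizer_iff.1 ht.1 (i v)).1 (hmem v)
      rw [← hr] at h1
      obtain ⟨w, hw⟩ := h1
      exact ⟨w, hw.symm⟩)
  have hact : ∀ t ∈ Tg V γ, ∃ σ ∈ SO.H43.autT i (Tg V γ), ∀ v, t * i v * t⁻¹ = i (σ v) := by
    intro t ht
    obtain ⟨σ, hσ⟩ := hact0 t ht
    exact ⟨σ, ⟨t, ht, hσ⟩, hσ⟩
  have hC : ∀ t, t ∈ Subgroup.centralizer (V : Set G) ↔ ∀ v, t * i v = i v * t := by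
    intro t
    rw [Subgroup.mem_centralizer_iff]
    constructor
    · intro h v
      exact (h (i v) (hmem v)).symm
    · intro h x hx
      have h1 : x ∈ i.range := hr.symm ▸ hx
      obtain ⟨v, rfl⟩ := h1
      exact (h v).symm
  refine ⟨SO.H43.autT i (Tg V γ), ⟨?_, ?_, ?_⟩, hi, hr, hact, fun σ hσ => hσ, ?_, ?_⟩
  · intro v
    apply hi
    rw [map_pow, hexp _ (hmem v), map_one]
  · rw [← hcd, ← hr]
    exact Nat.card_congr (MonoidHom.ofInjective hi).toEquiv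
  · rw [card_autT i (Tg V γ) hi (Subgroup.centralizer (V : Set G)) hC hact0]
    exact hInx ℓ M hM G e hL.blk V hL.tp hL.ab γ hL.gam.supp hL.gam.blk hL.und
  · rintro hcom σ ⟨s, hs, hσ⟩ τ ⟨t, ht, hτ⟩
    apply MulEquiv.ext
    intro v
    apply hi
    have h1 := (hC _).1 (hcom s hs t ht) (τ (σ v))
    rw [MulAut.mul_apply, MulAut.mul_apply, ← hσ, ← hτ]
    rw [← hτ, ← hσ] at h1 ⊢
    have h2 : s * (t * i v * t⁻¹) * s⁻¹ =
        (s * t * s⁻¹ * t⁻¹ * (t * (s * i v * s⁻¹) * t⁻¹)) * (s * t * s⁻¹ * t⁻¹)⁻¹ := by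
      group
    rw [h2, h1]
    group
  · intro hFr t ht v hv hv1 htv
    obtain ⟨σ, hσE, hσ⟩ := hact t ht
    have h1 : v ∈ i.range := hr.symm ▸ hv
    obtain ⟨w, rfl⟩ := h1
    have h2 : σ w = w := by
      apply hi
      rw [← hσ w, htv, mul_inv_cancel_right]
    have h3 : σ = 1 := by
      by_contra hne
      exact hv1 (by rw [hFr.fr σ hσE hne w h2, map_one])
    rw [hC]
    intro u
    have h4 := hσ u
    rw [h3, MulAut.one_apply] at h4
    exact mul_inv_eq_iff_eq_mul.1 h4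

/-- ESD -/
theorem esd_ (hInx : K9.InxStmt) : EsdStmt := by
  intro ℓ _ M _ hM G _ _ e V γ hL hexp hcd
  let inst : CommGroup V := { (inferInstance : Group V) with
    mul_comm := fun a b => Subtype.ext (hL.ab a a.2 b b.2) }
  let i : V →* G := { toFun := Subtype.val, map_one' := rfl, map_mul' := fun _ _ => rfl }
  have hi : Function.Injective i := Subtype.val_injective
  have hr : i.range = V := by
    ext x
    constructor
    · rintro ⟨v, rfl⟩
      exact v.2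
    · intro hx
      exact ⟨⟨x, hx⟩, rfl⟩
  obtain ⟨E₀, h⟩ := esd_gen hInx hM hL hexp hcd i hi hr
  exact ⟨V, inst, inferInstance, E₀, i, h⟩

theorem esd : EsdStmt := esd_ K9.H34.inx

end Pool.Agent.PP.SD.H20
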